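import Pool.Agent.Helper31.LQ.Goals

/-!
Packet LQ-DECA.
-/

open MeasureTheory Set
open scoped ENNReal Matrix

namespace Pool.Agent.Helper86.LQ

open Pool.Agent.Helper31.LQ

theorem linpr {n d : ℕ} (Y : Fin n → Fin d → ℝ) (π : Equiv.Perm (Fin (n + 1)))
    (s : Fin d → ℝ) : lin Y (pr (emb d π s)) = Matrix.vecMul s (mat Y π) := by
  have h1 : ∀ o, emb d π s o = ∑ a, s a * emb d π (Pi.single a 1) o := by
    intro o
    unfold emb
    by_cases h : (π.symm o).val < d
    · simp only [h, dif_pos]
      rw [Finset.sum_eq_single (⟨(π.symm o).val, h⟩ : Fin d)]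
      · simp
      · intro b _ hb
        rw [Pi.single_eq_of_ne hb.symm]
        simp
      · simp
    · simp [h]
  have h2 : ∀ l, pr (emb d π s) l = ∑ a, s a * pr (emb d π (Pi.single a 1)) l := by
    intro l
    unfold pr
    rw [h1, h1, ← Finset.sum_sub_distrib]
    exact Finset.sum_congr rfl fun a _ => by ring
  ext c
  simp only [Matrix.vecMul, dotProduct, mat, Matrix.of_apply, lin]
  simp only [h2, Finset.sum_mul, Finset.mul_sum]
  rw [Finset.sum_comm]
  exact Finset.sum_congr rfl fun a _ => Finset.sum_congr rfl fun l _ => by ring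

theorem gDECA : DECA := by
  intro n d hd hdn Y π hdet
  set L : (Fin d → ℝ) →ₗ[ℝ] (Fin d → ℝ) := Matrix.toLin' (mat Y π)ᵀ with hL
  have hLt : ∀ t, L t = lin Y (pr (emb d π t)) := by
    intro t
    rw [linpr, hL, Matrix.toLin'_apply, Matrix.mulVec_transpose]
  have hLdet : LinearMap.det L = (mat Y π).det := by
    rw [hL, LinearMap.det_toLin', Matrix.det_transpose]
  set G : (Fin d → ℝ) →L[ℝ] (Fin d → ℝ) := LinearMap.toContinuousLinearMap L with hG
  have hGdet : G.det = (mat Y π).det := by
    rw [hG]
    exact hLdet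
  have hinj : Function.Injective L := by
    have h := (LinearMap.equivOfDetNeZero L (by rw [hLdet]; exact hdet)).injective
    exact h
  have hsurj : Function.Surjective L := by
    have h := (LinearMap.equivOfDetNeZero L (by rw [hLdet]; exact hdet)).surjective
    exact h
  have hpos : IsOpen (pos d) := by
    unfold pos
    simp only [Set.setOf_forall]
    exact isOpen_iInter_of_finite fun a => isOpen_lt continuous_const (continuous_apply a)
  have hCone : Cone Y π = (fun t => L t) '' pos d := by
    unfold Cone pos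
    simp only [hLt]
  have hopen : IsOpen (Cone Y π) := by
    rw [hCone]
    exact (G.isOpenMap hsurj) _ hpos
  refine ⟨hopen.measurableSet, ?_⟩
  intro F hF
  rw [hCone]
  have h := lintegral_image_eq_lintegral_abs_det_fderiv_mul (volume : Measure (Fin d → ℝ))
    (s := pos d) (f := fun t => L t) (f' := fun _ => G) hpos.measurableSet
    (fun x _ => (G.hasFDerivAt (x := x)).hasFDerivWithinAt) (hinj.injOn) F
  rw [h]
  simp only [hGdet, ← hLt]
  exact lintegral_const_mul' _ _ ENNReal.ofReal_ne_top

end Pool.Agent.Helper86.LQ
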