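import Pool.Agent.Helper31.LQ.Goals
import Pool.Agent.Helper86.LQ.DECA

/-!
Packet LQ-VD0.
-/

open MeasureTheory Set
open scoped ENNReal Matrix Pointwise Topology
open Pool.Agent.Helper47.AQ

namespace Pool.Agent.Helper86.LQ

open Pool.Agent.Helper31.LQ

/-- `lin Y` as a linear map. -/
noncomputable def linL {n d : ℕ} (Y : Fin n → Fin d → ℝ) : (Fin n → ℝ) →ₗ[ℝ] (Fin d → ℝ) where
  toFun := lin Y
  map_add' x y := by
    ext c
    simp only [lin, Pi.add_apply, add_mul, Finset.sum_add_distrib]
  map_smul' a x := by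
    ext c
    simp only [lin, Pi.smul_apply, smul_eq_mul, RingHom.id_apply, Finset.mul_sum, mul_assoc]

theorem linL_apply {n d : ℕ} (Y : Fin n → Fin d → ℝ) (x : Fin n → ℝ) : linL Y x = lin Y x := rfl

theorem lin_smul {n d : ℕ} (Y : Fin n → Fin d → ℝ) (a : ℝ) (x : Fin n → ℝ) :
    lin Y (a • x) = a • lin Y x := (linL Y).map_smul a x

theorem li_smul {n : ℕ} (a : ℝ) (x : Fin n → ℝ) : li (a • x) = a • li x := by
  funext o
  refine Fin.lastCases ?_ (fun l => ?_) o
  · simp [li]
  · simp [li]

theorem ell_smul {n : ℕ} (j : Fin (n + 1)) (a : ℝ) (t : Fin (n + 1) → ℝ) :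
    ell j (a • t) = a * ell j t := by
  unfold ell
  simp only [Pi.smul_apply, smul_eq_mul, ← Finset.mul_sum]
  ring

theorem linL_surj {n d : ℕ} (Y : Fin n → Fin d → ℝ) (hY : GP Y) :
    Function.Surjective (linL Y) := by
  intro z
  have hdet := (hY 1).1
  refine ⟨pr (emb d 1 (Matrix.vecMul z (mat Y 1)⁻¹)), ?_⟩
  rw [linL_apply, linpr, Matrix.vecMul_vecMul, Matrix.nonsing_inv_mul _
    (isUnit_iff_ne_zero.mpr hdet), Matrix.vecMul_one]

theorem gVD0 (hDEC : DEC) (hKPF : KPF) (hX2 : X2) (hD0B : D0B) (hCO : CO) : VD0 := by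
  classical
  intro n d hd hdn Y hY
  have hn : 1 ≤ n := hd.trans hdn
  obtain ⟨-, -, hbody, h0int, -⟩ := hD0B n hn
  obtain ⟨-, -, -, -, -, -, -, -, -, hellpr, hsumemb, -, -⟩ := hCO n d Y
  set B : Set (Fin d → ℝ) := lin Y '' D0 n with hB
  have hBL : B = linL Y '' D0 n := rfl
  have hsurj := linL_surj Y hY
  have hopen : IsOpenMap (linL Y) := (linL Y).isOpenMap_of_finiteDimensional hsurj
  have hcont : Continuous (linL Y) := LinearMap.continuous_of_finiteDimensional _
  have hconv : Convex ℝ B := by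
    rw [hBL]
    exact hbody.conv.linear_image (linL Y)
  have hcomp : IsCompact B := by
    rw [hBL]
    exact hbody.comp.image hcont
  have h0 : (0 : Fin d → ℝ) ∈ interior B := by
    have h1 : linL Y '' interior (D0 n) ⊆ interior B :=
      interior_maximal (image_mono interior_subset) (hopen _ isOpen_interior)
    exact h1 ⟨0, h0int, map_zero _⟩
  have hBody : IsBody B := ⟨hconv, hcomp, ⟨0, h0⟩⟩
  have hnhds : B ∈ 𝓝 (0 : Fin d → ℝ) := mem_interior_iff_mem_nhds.mp h0
  have hgc : Continuous (gauge B) := continuous_gauge hconv hnhds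
  have habs : Absorbent ℝ B := absorbent_nhds_zero hnhds
  -- the Laplace transform
  have hlap := Pool.Agent.Helper47.AQ.laplace (ι := Fin d) univ (fun t _ x => by simp) (gauge B) hgc.measurable
    (fun t ht x => by rw [gauge_smul_of_nonneg ht.le, smul_eq_mul]) (gauge_nonneg (s := B))
  rw [univ_inter, Measure.restrict_univ, Fintype.card_fin] at hlap
  have hset : {x | gauge B x ≤ 1} = B := by
    ext x
    rw [mem_setOf_eq, gauge_le_one_iff_mem_closure hconv hnhds, hcomp.isClosed.closure_eq]
  rw [hset] at hlap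
  -- the decomposition
  have hdec := hDEC n d hd hdn Y hY (fun z => ENNReal.ofReal (Real.exp (-(gauge B z))))
    (by fun_prop)
  rw [hlap] at hdec
  -- the gauge on the cones over the facets
  have hgauge : ∀ π : Equiv.Perm (Fin (n + 1)), IsFac Y π → ∀ t ∈ pos d,
      gauge B (lin Y (pr (emb d π t))) = ∑ a, t a := by
    intro π hπ t ht
    obtain ⟨k1, -, k3, k4, k5⟩ := hKPF n d hd hdn Y π hπ.1
    have hT : 0 < ∑ a, t a :=
      Finset.sum_pos (fun a _ => ht a) ⟨⟨0, hd⟩, Finset.mem_univ _⟩
    apply le_antisymm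
    · apply gauge_le_of_mem hT.le
      refine mem_smul_set.mpr ⟨lin Y ((∑ a, t a)⁻¹ • pr (emb d π t)), ⟨_, ?_, rfl⟩, ?_⟩
      · intro j
        rw [li_smul, ell_smul, hellpr]
        have h1 : ell j (emb d π t) ≤ ∑ a, t a := by
          unfold ell
          rw [hsumemb π t (by omega)]
          have h2 : 0 ≤ emb d π t j := by
            unfold emb
            split_ifs
            · exact (ht _).le
            · exact le_rfl
          nlinarith [mul_nonneg (by positivity : (0 : ℝ) ≤ (n : ℝ) + 1) h2]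
        rw [inv_mul_le_iff₀ hT, mul_one]
        exact h1
      · rw [lin_smul, smul_smul, mul_inv_cancel₀ hT.ne', one_smul]
    · by_contra hlt
      rw [not_le] at hlt
      obtain ⟨b, hb, hbT, hz⟩ := exists_lt_of_gauge_lt habs hlt
      obtain ⟨y, ⟨x, hx, rfl⟩, hy⟩ := mem_smul_set.mp hz
      have h1 := k1 t
      rw [← hy] at h1
      have h2 : ∑ c, nu Y π c * (b • lin Y x) c = b * ∑ o, kp Y π o * ell o (li x) := by
        rw [← k4 x, Finset.mul_sum]
        refine Finset.sum_congr rfl fun c _ => ?_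
        simp only [Pi.smul_apply, smul_eq_mul]
        ring
      rw [h2] at h1
      have h3 : ∑ o, kp Y π o * ell o (li x) ≤ 1 := by
        rw [← k3]
        refine Finset.sum_le_sum fun o _ => ?_
        have := k5 hπ o
        have := hx o
        nlinarith
      nlinarith
  have hpos : MeasurableSet (pos d) := by
    unfold pos
    simp only [Set.setOf_forall]
    exact MeasurableSet.iInter fun a => measurableSet_lt measurable_const (measurable_pi_apply a)
  have hone : ∫⁻ t in pos d, ENNReal.ofReal (Real.exp (-(∑ a, t a))) = 1 := by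
    obtain ⟨h1, h2⟩ := (hX2 d).1 1 one_pos
    simp only [one_mul, one_pow, inv_one] at h1 h2
    rw [← ofReal_integral_eq_lintegral_ofReal h1
      (Filter.Eventually.of_forall fun t => (Real.exp_pos _).le), h2, ENNReal.ofReal_one]
  have hterm : ∀ π : Equiv.Perm (Fin (n + 1)), IsFac Y π →
      ∫⁻ t in pos d, ENNReal.ofReal (Real.exp (-(gauge B (lin Y (pr (emb d π t)))))) = 1 := by
    intro π hπ
    rw [← hone]
    refine setLIntegral_congr_fun hpos fun t ht => ?_
    beta_reduce
    rw [hgauge π hπ t ht]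
  have hdec2 : (Nst n d : ℝ≥0∞) * ((d.factorial : ℝ≥0∞) * volume B) =
      ∑ π : Equiv.Perm (Fin (n + 1)), if IsFac Y π then ENNReal.ofReal |(mat Y π).det| else 0 := by
    rw [hdec]
    refine Finset.sum_congr rfl fun π _ => ?_
    by_cases hπ : IsFac Y π
    · rw [if_pos hπ, if_pos hπ, hterm π hπ, mul_one]
    · rw [if_neg hπ, if_neg hπ]
  refine ⟨?_, hBody.vol_pos, hBody.vol_ne_top, ?_⟩
  · have h1 := congrArg ENNReal.toReal hdec2
    rw [ENNReal.toReal_mul, ENNReal.toReal_mul, ENNReal.toReal_natCast, ENNReal.toReal_natCast,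
      ENNReal.toReal_sum (fun π _ => by
        split_ifs
        · exact ENNReal.ofReal_ne_top
        · exact ENNReal.zero_ne_top)] at h1
    rw [mul_assoc, h1]
    refine Finset.sum_congr rfl fun π _ => ?_
    by_cases hπ : IsFac Y π
    · simp only [if_pos hπ]
      exact ENNReal.toReal_ofReal (abs_nonneg _)
    · simp only [if_neg hπ]
      rfl
  · unfold Nst
    exact Fintype.card_pos_iff.mpr ⟨⟨1, fun o => Iff.rfl⟩⟩

end Pool.Agent.Helper86.LQ
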